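import Mathlib
import Pool.Agent.TH657.PatH

/-!
# MP_7f399b_lc — linear upper bounds for the inclusion depth over small alphabets
-/

namespace Pool.Agent.Results.MP_7f399b_lc.SixTimesLength

open Pool.Agent.PatDepth Pool.Agent.H344R3.PD Pool.Agent.TH657.Pat

/-- Let `(s, c)` be one of `(2, 5)`, `(3, 3)`, `(4, 2)` and let `A` be a finite alphabet with at least
`s` letters. Then `(c+1)|p| - #var(p) > (c+1)|q| - #var(q)` whenever `L(p) ⊊ L(q)`, and the inclusion
depth of every non-empty pattern `p` is at most `(c+1)|p| - #var(p) - c`. -/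
theorem result (A : Type) [Fintype A] (s c : ℕ)
    (hsc : (s, c) ∈ [((2 : ℕ), (5 : ℕ)), (3, 3), (4, 2)]) (hA : s ≤ Fintype.card A) :
    (∀ p q : List (ℕ ⊕ A), p ≠ [] → q ≠ [] → Lang p ⊂ Lang q →
      (c + 1) * q.length + nvar p < (c + 1) * p.length + nvar q) ∧
    (∀ p : List (ℕ ⊕ A), p ≠ [] → ∀ n, HasChain p n → n + c + nvar p ≤ (c + 1) * p.length) := by
  simp only [List.mem_cons, Prod.mk.injEq, List.not_mem_nil, or_false] at hsc
  have h2 : 2 ≤ s := by omega
  have hc : 1 ≤ c := by omega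
  have h1 : Nontrivial A := Fintype.one_lt_card_iff_nontrivial.mp (by omega)
  have key : (2 * c + 1) ^ (2 * c + 1) ≤ (2 * c) ^ (2 * c) * Fintype.card A ^ c := by
    have h3 : s ^ c ≤ Fintype.card A ^ c := Nat.pow_le_pow_left hA c
    refine le_trans ?_ (Nat.mul_le_mul_left _ h3)
    rcases hsc with ⟨rfl, rfl⟩ | ⟨rfl, rfl⟩ | ⟨rfl, rfl⟩ <;> norm_num
  exact ⟨fun p q _ _ h => law3 hc key h, fun p _ n h => depth_le3 hc key h⟩

end Pool.Agent.Results.MP_7f399b_lc.SixTimesLength
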